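import Pool.Agent.V11230.MD4

/-!
# Majority domination of complete multipartite graphs is in P

MAJ-CMP: given positive integers `n₁, …, nₘ` and `k`, all in binary, does the complete multipartite
graph with parts of these sizes have a majority dominating function of weight at most `k`?  The
problem is in P.  The answer is yes if `k ≥ 2` or the number of the vertices is odd.  Otherwise a
function is determined, up to a change that does not matter, by the types of the parts: low (the
sum of the part is so small that all its vertices are good), middle (only the vertices of value 1
are good), or high (no vertex is good).  If some high part has at least `3m` vertices then all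
other parts may be low (or middle, if they have only one vertex); otherwise a dynamic programme with
truncated sums of polynomial size decides the existence of the types.
-/

set_option autoImplicit false

namespace Pool.Agent.Results.MP_1ffe94_lc.MajCMPInP

open Pool.Agent.NPC Pool.Agent.V11230.MD Pool.Agent.NPC.V11230.MDP

/-- The decision problem MAJ-CMP: `I.1` is a nonempty list of positive integers, `I.2` is a positive
integer, and the complete multipartite graph with parts of the sizes `I.1` has a majority
dominating function of weight at most `I.2`. -/
def MajCMP (I : List ℕ × ℕ) : Prop := Valid I ∧ HasMDF (KG I.1) I.2

theorem majCMP_iff (I : List ℕ × ℕ) : MajCMP I ↔ (validB I && dec I) = true := by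
  rw [Bool.and_eq_true, validB_iff]
  unfold MajCMP
  refine and_congr_right fun h => ?_
  rw [hasMDF_iff]
  exact feas_iff h.1.1 h.1.2 h.2

/-- **MAJ-CMP is in P**, and if it is NP-hard then every problem in NP is in P. -/
theorem result : InPP MajCMP ∧ (NPHardP MajCMP → ∀ L, InNP L → InP L) := by
  have h : InPP MajCMP := inPP_of (Poly.and poly_validB poly_dec) majCMP_iff
  exact ⟨h, fun h' => NPHard.collapse h' h⟩

end Pool.Agent.Results.MP_1ffe94_lc.MajCMPInP
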